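import Pool.Agent.Y746.OM.Stm2
import Pool.Agent.Y495.OM.RK

/-!
# OM2-RK2: the choice of the resonator with the sharp cost
-/

set_option autoImplicit false

namespace Pool.Agent.Y356.OM

open Finset Pool.Agent.Y746.OM Pool.Agent.Y495.OM

theorem t_RK2 (hNT : S_NT) : S_RK2 := by
  classical
  intro h η hh hη
  obtain ⟨c₀, X0, hc₀, hX0, hN⟩ := hNT h hh
  set L0 : ℝ := max X0 (max ((16 / η) ^ 2) (Real.exp (max η 1))) with hL0
  refine ⟨c₀ * Real.sqrt (η / 100) / 4, 1 + 8 * Real.sqrt (η / 100), Real.exp L0,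
    by positivity, by positivity, ?_, ?_⟩
  · have h1 : 10 ≤ L0 := hX0.trans (le_max_left _ _)
    have h2 := Real.add_one_le_exp L0
    linarith
  intro T hT
  have hT0 : 0 < T := lt_of_lt_of_le (Real.exp_pos _) hT
  set L := Real.log T with hLd
  have hLL0 : L0 ≤ L := by
    rw [hLd, Real.le_log_iff_exp_le hT0]
    exact hT
  have hLX : X0 ≤ L := (le_max_left _ _).trans hLL0
  have hL10 : 10 ≤ L := hX0.trans hLX
  have hLη : (16 / η) ^ 2 ≤ L := ((le_max_left _ _).trans (le_max_right _ _)).trans hLL0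
  have hLe : Real.exp (max η 1) ≤ L := ((le_max_right _ _).trans (le_max_right _ _)).trans hLL0
  have hLpos : 0 < L := by linarith
  have hLL1 : max η 1 ≤ Real.log L := by
    rw [Real.le_log_iff_exp_le hLpos]
    exact hLe
  have hLLη : η ≤ Real.log L := (le_max_left _ _).trans hLL1
  have hLL1' : 1 ≤ Real.log L := (le_max_right _ _).trans hLL1
  have hLLpos : 0 < Real.log L := by linarith
  have hsq : 16 / η ≤ Real.sqrt L := Real.le_sqrt_of_sq_le hLη
  have hlogsq : Real.log L ≤ 2 * Real.sqrt L := by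
    have h1 : 0 < Real.sqrt L := Real.sqrt_pos.2 hLpos
    have h2 := Real.log_le_sub_one_of_pos h1
    rw [Real.log_sqrt hLpos.le] at h2
    linarith
  have hX : 8 ≤ η * L / Real.log L := by
    rw [le_div_iff₀ hLLpos]
    have h1 : 16 ≤ η * Real.sqrt L := by
      rw [div_le_iff₀ hη] at hsq
      linarith
    have h2 : Real.sqrt L * Real.sqrt L = L := Real.mul_self_sqrt hLpos.le
    have h3 : 0 < Real.sqrt L := Real.sqrt_pos.2 hLpos
    nlinarith
  set P := (Icc 1 ⌊L ^ 2⌋₊).filter (fun p : ℕ => p.Prime ∧ L < (p : ℝ)) with hPd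
  obtain ⟨hN1, hN2, hN3⟩ := hN L hLX
  have hP : ∀ p ∈ P, p.Prime ∧ L < p ∧ (p : ℝ) ≤ L ^ 2 := by
    intro p hp
    rw [hPd, Finset.mem_filter, Finset.mem_Icc] at hp
    exact ⟨hp.2.1, hp.2.2, (Nat.le_floor_iff (by positivity)).1 hp.1.2⟩
  set lam : ℝ := Real.sqrt (η * L / Real.log L / 100) with hlamd
  have hlam0 : 0 ≤ lam := Real.sqrt_nonneg _
  have hlam2 : lam ^ 2 = η * L / Real.log L / 100 := Real.sq_sqrt (by positivity)
  have hlamL : lam ^ 2 ≤ L := by
    rw [hlam2, div_le_iff₀ (by norm_num), div_le_iff₀ hLLpos]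
    nlinarith
  have hlamE : lam = Real.sqrt (η / 100) * Real.sqrt (L / Real.log L) := by
    rw [hlamd, ← Real.sqrt_mul (by positivity)]
    congr 1
    ring
  set r : ℕ → ℝ := fun p => lam / Real.sqrt p with hr
  set Pw := ∏ p ∈ P, (1 + r p ^ 2) with hPw
  have hPw0 : 0 < Pw := Finset.prod_pos fun p _ => by positivity
  have htail : ∀ y : ℝ, 1 ≤ y → y ≤ L ^ 2 → Wt P (fun p => r p ^ 2) (T ^ η / y) ≤ Pw / 8 :=
    fun y hy1 hy2 => tail hη hL10 hX hP hlam2 hN3 hy1 hy2 hT0
  have hN0a := N0_add P r (T ^ η)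
  rw [← hPw] at hN0a
  have hW0 := Wt_nonneg P r (T ^ η)
  have hW1 := htail 1 le_rfl (by nlinarith)
  rw [div_one] at hW1
  have hN0le : N0 P r (T ^ η) ≤ Pw := by linarith
  have hN0ge : Pw / 2 ≤ N0 P r (T ^ η) := by linarith
  have hrp : ∀ p ∈ P, r p ^ 2 ≤ 1 := by
    intro p hp
    have h1 := (hP p hp).2.1
    have h2 : (0 : ℝ) < p := by linarith
    show (lam / Real.sqrt p) ^ 2 ≤ 1
    rw [div_pow, Real.sq_sqrt h2.le, div_le_one h2]
    linarith
  have hN1ge : ∀ p ∈ P, Pw / 4 ≤ N1 P r (T ^ η) p := by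
    intro p hp
    have h1 := N1_ge (r := r) (Q := T ^ η) hp
    have h2 := htail p (by linarith [(hP p hp).2.1]) (hP p hp).2.2
    have h3 : Pw / 2 ≤ Pw / (1 + r p ^ 2) :=
      div_le_div_of_nonneg_left hPw0.le (by positivity) (by linarith [hrp p hp])
    rw [← hPw] at h1
    linarith
  refine ⟨P, r, fun p hp => ⟨(hP p hp).1, (hP p hp).2.1.le, (hP p hp).2.2⟩,
    fun p _ => div_nonneg hlam0 (Real.sqrt_nonneg _), ?_, ?_⟩
  · have h1 : ∀ p ∈ P, lam * (Pw / 4) * (|Real.sin (h * Real.log p / 2)| / p) ≤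
        |Real.sin (h * Real.log p / 2)| / Real.sqrt p * r p * N1 P r (T ^ η) p := by
      intro p hp
      have h2 : (0 : ℝ) < p := by linarith [(hP p hp).2.1]
      have h3 : Real.sqrt p * Real.sqrt p = p := Real.mul_self_sqrt h2.le
      have h4 : 0 < Real.sqrt p := Real.sqrt_pos.2 h2
      have h5 : |Real.sin (h * Real.log p / 2)| / Real.sqrt p * r p =
          lam * (|Real.sin (h * Real.log p / 2)| / p) := by
        show |Real.sin (h * Real.log p / 2)| / Real.sqrt p * (lam / Real.sqrt p) = _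
        rw [div_mul_div_comm, h3]
        ring
      rw [h5]
      have h6 : 0 ≤ lam * (|Real.sin (h * Real.log p / 2)| / p) := by positivity
      calc lam * (Pw / 4) * (|Real.sin (h * Real.log p / 2)| / p) =
            lam * (|Real.sin (h * Real.log p / 2)| / p) * (Pw / 4) := by ring
        _ ≤ _ := mul_le_mul_of_nonneg_left (hN1ge p hp) h6
    have h2 := Finset.sum_le_sum h1
    rw [← Finset.mul_sum] at h2
    refine le_trans ?_ h2
    have h3 : lam * (Pw / 4) * c₀ ≤ lam * (Pw / 4) *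
        ∑ p ∈ P, |Real.sin (h * Real.log p / 2)| / p :=
      mul_le_mul_of_nonneg_left hN1 (by positivity)
    refine le_trans ?_ h3
    have h4 : c₀ * Real.sqrt (η / 100) / 4 * Real.sqrt (L / Real.log L) * N0 P r (T ^ η) =
        lam * c₀ / 4 * N0 P r (T ^ η) := by rw [hlamE]; ring
    rw [h4]
    calc lam * c₀ / 4 * N0 P r (T ^ η) ≤ lam * c₀ / 4 * Pw :=
          mul_le_mul_of_nonneg_left hN0le (by positivity)
      _ = _ := by ring
  · have h1 : EP P r ≤ Pw * Real.exp (8 * lam) := by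
      have h2 : EP P r ≤ ∏ p ∈ P, ((1 + r p ^ 2) * Real.exp (8 * r p / Real.sqrt p)) := by
        unfold EP
        refine Finset.prod_le_prod (fun p _ => ?_) fun p _ => ?_
        · have : 0 ≤ r p := div_nonneg hlam0 (Real.sqrt_nonneg _)
          positivity
        · have h3 : 0 ≤ r p := div_nonneg hlam0 (Real.sqrt_nonneg _)
          have h4 : 0 ≤ 8 * r p / Real.sqrt p := by positivity
          have h5 := Real.add_one_le_exp (8 * r p / Real.sqrt p)
          calc 1 + r p ^ 2 + 8 * r p / Real.sqrt p ≤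
                (1 + r p ^ 2) * (8 * r p / Real.sqrt p + 1) := by nlinarith [sq_nonneg (r p)]
            _ ≤ _ := mul_le_mul_of_nonneg_left h5 (by positivity)
      rw [Finset.prod_mul_distrib, ← Real.exp_sum] at h2
      refine h2.trans (mul_le_mul_of_nonneg_left (Real.exp_le_exp.2 ?_) hPw0.le)
      have h3 : ∑ p ∈ P, 8 * r p / Real.sqrt p = 8 * lam * ∑ p ∈ P, (1 : ℝ) / p := by
        rw [Finset.mul_sum]
        refine Finset.sum_congr rfl fun p hp => ?_
        have h4 : (0 : ℝ) < p := by linarith [(hP p hp).2.1]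
        have h5 : Real.sqrt p * Real.sqrt p = p := Real.mul_self_sqrt h4.le
        show 8 * (lam / Real.sqrt p) / Real.sqrt p = _
        rw [mul_div_assoc, div_div, h5]
        ring
      rw [h3]
      calc 8 * lam * ∑ p ∈ P, (1 : ℝ) / p ≤ 8 * lam * 1 :=
            mul_le_mul_of_nonneg_left hN2 (by positivity)
        _ = _ := mul_one _
    set sL : ℝ := Real.sqrt (L / Real.log L) with hsL
    have h3 : 1 ≤ sL := by
      rw [hsL]
      refine Real.one_le_sqrt.2 ?_
      rw [one_le_div hLLpos]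
      have := Real.log_le_sub_one_of_pos hLpos
      linarith
    have h4 : (2 : ℝ) ≤ Real.exp sL := by
      have := Real.add_one_le_exp sL
      linarith
    have h5 : Real.exp (8 * lam) ≤ Real.exp (8 * Real.sqrt (η / 100) * sL) := by
      rw [hlamE]
      refine Real.exp_le_exp.2 (le_of_eq ?_)
      ring
    have h6 : Real.exp ((1 + 8 * Real.sqrt (η / 100)) * sL) =
        Real.exp sL * Real.exp (8 * Real.sqrt (η / 100) * sL) := by
      rw [← Real.exp_add]; congr 1; ring
    rw [h6]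
    have h7 : Pw ≤ Real.exp sL * N0 P r (T ^ η) := by
      have h8 : 0 ≤ N0 P r (T ^ η) := by linarith
      nlinarith
    calc EP P r ≤ Pw * Real.exp (8 * lam) := h1
      _ ≤ (Real.exp sL * N0 P r (T ^ η)) *
          Real.exp (8 * Real.sqrt (η / 100) * sL) :=
        mul_le_mul h7 h5 (Real.exp_pos _).le (hPw0.le.trans h7)
      _ = _ := by ring

end Pool.Agent.Y356.OM
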